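import Mathlib
import Pool.Agent.H744R2.KZ.Props

/-!
The bound for derivations of unital C*-algebras.
-/

open scoped ComplexOrder InnerProductSpace ComplexConjugate Topology
open Finset Filter

noncomputable section

namespace H744R2.KZ

open H759R2.Kad

universe u

theorem prove_A_alg (h1 : E_ext.{u}) (h2 : A_vn.{u}) (h3 : A_map.{u}) : A_alg.{u} := by
  intro A _ _ _ H _ _ _ π D K hD n X
  obtain ⟨M, hM, D', hD', hDD⟩ := h1 A H π D K hD
  letI : PartialOrder M.toStarSubalgebra := CStarAlgebra.spectralOrder M.toStarSubalgebra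
  letI : StarOrderedRing M.toStarSubalgebra := CStarAlgebra.spectralOrderedRing M.toStarSubalgebra
  let π' : A →⋆ₐ[ℂ] M.toStarSubalgebra := π.codRestrict M.toStarSubalgebra hM
  let Y : CStarMatrix (Fin n) (Fin n) M.toStarSubalgebra :=
    CStarMatrix.ofMatrix fun i j => π' (X i j)
  have hY : ‖Y‖ ≤ ‖X‖ := h3 A M.toStarSubalgebra π' n X
  have hamp : amp D (Fin n) X = amp D' (Fin n) Y := by
    ext v i
    rw [amp_apply, amp_apply]
    refine Finset.sum_congr rfl (fun j _ => ?_)
    have : D' (Y i j) = D (X i j) := hDD (X i j)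
    rw [this]
  rw [hamp]
  have hK := hD'.nonneg
  have hC : (0 : ℝ) ≤ 3 * C0 + 2 := by unfold C0; positivity
  calc ‖amp D' (Fin n) Y‖ ≤ (3 * C0 + 2) * (2 * K) * ‖Y‖ := h2 H M D' (2 * K) hD' n Y
    _ ≤ (3 * C0 + 2) * (2 * K) * ‖X‖ := mul_le_mul_of_nonneg_left hY (by positivity)
    _ = (6 * C0 + 4) * K * ‖X‖ := by ring

end H744R2.KZ
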