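import Mathlib
import Pool.Agent.H744R2.KZ.Props

/-!
The fibres with a tracial state belong to the class of the main theorem.
-/

open scoped ComplexOrder InnerProductSpace ComplexConjugate Topology
open Finset Filter

noncomputable section

namespace H744R2.KZ

open H759R2.Kad

universe u

theorem prove_N_class (h1 : N_pow.{u}) (h2 : N_dix.{u}) (h3 : N_orth.{u}) (h4 : N_tr.{u}) :
    N_class.{u} := by
  intro H _ _ _ M z B _ p hF hNA hτ L₀
  obtain ⟨τ, hτ⟩ := hτ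
  obtain ⟨N, E, iE, q, hFN, hNAN, ⟨e⟩⟩ := h1 H M z B p hF hNA L₀
  obtain ⟨τ', hτ'⟩ := h4 B E (2 ^ L₀) (by positivity) τ hτ ⟨e⟩
  refine ⟨2 ^ L₀, (Nat.lt_two_pow_self).le, E, iE, CStarAlgebra.spectralOrder E,
    CStarAlgebra.spectralOrderedRing E, τ', hτ', h2 H N z E q hFN τ' hτ', ?_, ⟨e⟩⟩
  refine h3 E τ' hτ' (fun k => ?_)
  obtain ⟨N', E', iE', q', -, -, hiso⟩ := h1 H N z E q hFN hNAN k
  exact ⟨E', iE', hiso⟩

end H744R2.KZ
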